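import Pool.Agent.Helper45.AM.Defs
import Pool.Agent.Helper15.RA.GoalsR

/-!
# Project AM (MP_cc6379_al): goals, parts G (Coxeter groups), V (transfer), U (finite groups).

`par cs P` = `W_P`, `XR cs P x`: `x` is shortest in `x W_P`, `XL cs P y`: `y` is shortest in `W_P y` (see
`Pool.Agent.Helper45.AM.Defs`). `al cs i j k` = `s_i s_j s_i ⋯` (`k` factors) is in `RA/GoalsR.lean`.
-/

set_option autoImplicit false

open LaurentPolynomial Pool.Agent.Helper15.RA Pool.Agent.Helper45.AM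

noncomputable section

namespace Pool.Agent.Helper15.AM

/-! ## Restriction of a Coxeter system along an injective map -/

section sub

variable {S W : Type} [Group W] {M : CoxeterMatrix S}

/-- The Coxeter matrix on `I'` pulled back along an injective map `e : I' → S`. (`subM M P` is the case of `Subtype.val`.) -/
def subE (M : CoxeterMatrix S) {I' : Type} (e : I' → S) (he : Function.Injective e) : CoxeterMatrix I' where
  M := M.M.submatrix e e
  isSymm := M.isSymm.submatrix _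
  diagonal i := M.diagonal (e i)
  off_diagonal i j hij := M.off_diagonal (e i) (e j) fun h => hij (he h)

theorem liftE (cs : CoxeterSystem M W) {I' : Type} (e : I' → S) (he : Function.Injective e) :
    (subE M e he).IsLiftable (fun i => cs.simple (e i)) :=
  fun i j => cs.simple_mul_simple_pow (e i) (e j)

/-- The homomorphism from the Coxeter group of `I'` to `W`. -/
def iotaE (cs : CoxeterSystem M W) {I' : Type} (e : I' → S) (he : Function.Injective e) :
    (subE M e he).Group →* W :=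
  (subE M e he).toCoxeterSystem.lift ⟨fun i => cs.simple (e i), liftE cs e he⟩

theorem subE_val (M : CoxeterMatrix S) (P : Set S) : subE M (Subtype.val : P → S) Subtype.val_injective = subM M P :=
  rfl

theorem iotaE_val (cs : CoxeterSystem M W) (P : Set S) :
    iotaE cs (Subtype.val : P → S) Subtype.val_injective = iotaP cs P :=
  rfl

end sub

/-! ## G: Coxeter groups -/

/-- One step of `σ_i σ_j` on the coordinates `(f i, f j)`; `c = cos (π / m)`. -/
def rot (c : ℝ) (p : ℝ × ℝ) : ℝ × ℝ := (-p.1 - 2 * c * p.2, 2 * c * p.1 + (4 * c ^ 2 - 1) * p.2)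

/-- PACKET AM-GMAT (1.5 h). The rotation of the plane for the geometric representation. `π / 0 = 0` in Lean, so `c = 1` for `m = 0`.

PROOF. Let `θ = π/m`. `m ≥ 2`: `sin θ > 0`; with `s(n) = sin(nθ)/sin θ` (`s` on `ℤ`, or use `sin` of real multiples): `rot^n (x,y) = (-s(2n-1) x - s(2n) y, s(2n) x + s(2n+1) y)` by induction on `n` (`s(k+1) + s(k-1) = 2c s(k)`, i.e. `sin((k+1)θ) + sin((k-1)θ) = 2 cos θ sin(kθ)`).
`n = m`: `2mθ = 2π`: `s(2m) = 0`, `s(2m+1) = 1`, `s(2m-1) = -1`: identity. Sum: `Q := ∑_(t<m) rot^t p` satisfies `rot Q = Q` (`rot` is additive), and `rot Q = Q` forces `Q = 0`: `-2 x - 2 c y = 0`, `2 c x + (4c²-2) y = 0` has determinant `-2(4c²-2) + 4c² = 4(1 - c²) = 4 sin² θ ≠ 0`.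
If `rot^n = id`: `sin(2nθ) = 0` and `sin((2n+1)θ) = sin θ`, i.e. `cos(2nθ) sin θ = sin θ`, `cos(2nθ) = 1`, so `2nπ/m = 2πk` (`Real.cos_eq_one_iff`), `n = k m`. `m = 0`: `c = 1`, `rot^n (x,y) = (-(2n-1) x - 2n y, 2n x + (2n+1) y)`; `= (x,y)` for all `x,y` only if `n = 0`. -/
def G_MAT : Prop := ∀ m : ℕ, m ≠ 1 →
  (m ≠ 0 → (∀ p, (rot (Real.cos (Real.pi / m)))^[m] p = p) ∧
    ∀ p, ∑ t ∈ Finset.range m, (rot (Real.cos (Real.pi / m)))^[t] p = 0) ∧
  ∀ n, (∀ p, (rot (Real.cos (Real.pi / m)))^[n] p = p) → m ∣ n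

/-- PACKET AM-GORD (2 h). From `G_MAT`. The order of `s_i s_j` is exactly `m_ij` (`orderOf = 0` means infinite order).

PROOF. The contragredient geometric representation: `V = S → ℝ`, `B k i = -cos (π / M k i)` (so `B i i = 1`, and `B k i = -1` if `M k i = 0`), `σ_i f = fun k => f k - 2 * B k i * f i` (linear, `σ_i (σ_i f) = f` as `(σ_i f) i = -f i`). Let `i ≠ j`, `m = M i j`, `c = cos(π/m)`. With `x = f i`, `y = f j`:
`(σ_j f) i = x + 2 c y`, `(σ_j f) j = -y`, `(σ_i (σ_j f)) i = -x - 2 c y`, `(σ_i (σ_j f)) j = -y + 2c (x + 2 c y)`: this is `rot c (x,y)`. For any `k`: `(σ_i (σ_j f)) k = f k - 2 B k j * y - 2 B k i * (x + 2 c y) = f k + λ_k (x,y)` with `λ_k` linear. So `((σ_i σ_j)^n f) k = f k + λ_k (∑_(t<n) rot^t (x,y))`, which is `f k`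
for `n = m ≠ 0` by `G_MAT`. So `i ↦ σ_i` (as an element of the monoid `Module.End ℝ V`, or `Function.End V`) is liftable (`M i i = 1`: `σ_i^2 = 1`; `m = 0` trivial), `cs.lift`. `(s_i s_j)^(M i j) = 1` is `simple_mul_simple_pow`. If `(s_i s_j)^n = 1` then `(σ_i σ_j)^n = 1`; take `f` with arbitrary
`f i = x`, `f j = y`: `rot^n (x,y) = (x,y)`, so `M i j ∣ n`. With `orderOf_dvd_iff_pow_eq_one`: `orderOf = M i j` (`Nat.dvd_antisymm`). `i = j`: `s_i s_i = 1`, `M i i = 1`. -/
def G_ORD : Prop := ∀ (S W : Type) [Group W] (M : CoxeterMatrix S) (cs : CoxeterSystem M W) (i j : S),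
  orderOf (cs.simple i * cs.simple j) = M i j

/-- PACKET AM-GEX (1 h). From `X_E` (proved). The exchange condition.

PROOF. Induction on `ω`; `ω = []`: `ℓ < 0`. `ω = j :: ω'`, `w' = π(ω')`, `ω'` is reduced (`IsReduced.drop`). If `ℓ(w' s_i) < ℓ(w')`: induction gives `k`, use `k + 1`. Otherwise `ℓ(w') < ℓ(w' s_i)` (`length_mul_simple`), and `ℓ(s_j w' s_i) < ℓ(s_j w')`: `X_E` with `(i, j, w) := (j, i, w')`: `s_j w' = w' s_i`, so `s_j w' s_i = w'`: `k = 0`. -/
def G_EX : Prop := ∀ (S W : Type) [Group W] (M : CoxeterMatrix S) (cs : CoxeterSystem M W) (ω : List S) (i : S),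
  cs.IsReduced ω → cs.length (cs.wordProd ω * cs.simple i) < cs.length (cs.wordProd ω) →
  ∃ k < ω.length, cs.wordProd ω * cs.simple i = cs.wordProd (ω.eraseIdx k)

/-- PACKET AM-GPA (2 h). From `G_EX`. Parabolic subgroups, first part.

PROOF. Call a list `ω` with letters in `P` a shortest `P`-word if no shorter list with letters in `P` has the same product (`w ∈ par cs P` is the product of a list with letters in `P`: `Subgroup.closure_induction`, `s_i⁻¹ = s_i`). Prefixes of shortest `P`-words are shortest `P`-words. CLAIM: let `x` have minimal length in `x W_P` and `ω` be a shortest `P`-word; then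
`ℓ(x π(ω)) = ℓ(x) + |ω|`. Induction: `ω = ω' ++ [i]`. Let `η` be a reduced word of `x`; by induction `η ++ ω'` is reduced. If the claim fails then `ℓ(x π(ω') s_i) < ℓ(x π(ω'))`, and `G_EX` gives `k`: `x π(ω') s_i = π((η ++ ω').eraseIdx k)`. If `k < |η|`: `π(η.eraseIdx k) = x π(ω') s_i π(ω')⁻¹ ∈ x W_P` is shorter than `x`. If `k ≥ |η|`:
`π(ω) = π(ω'.eraseIdx (k - |η|))`, a shorter list in `P`. Contradiction in both cases. (1): `x = 1` (length `0`): a shortest `P`-word of `w` is reduced. (2): take `x` of minimal length in `w W_P`. (3): let `XR P x`, `x₀` of minimal length in `x W_P`, `x = x₀ π(ω)` with a shortest `P`-word `ω`; if `ω = ω' ++ [i]` then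
`ℓ(x s_i) = ℓ(x₀ π(ω')) = ℓ(x) - 1`, contradiction; so `x = x₀`, and the claim for `x` and a shortest `P`-word of `g` (which has length `ℓ(g)`, by (1)). -/
def G_PA : Prop := ∀ (S W : Type) [Group W] (M : CoxeterMatrix S) (cs : CoxeterSystem M W) (P : Set S),
  (∀ w ∈ par cs P, ∃ ω : List S, cs.IsReduced ω ∧ (∀ i ∈ ω, i ∈ P) ∧ w = cs.wordProd ω) ∧
  (∀ w, ∃ x, ∃ g ∈ par cs P, XR cs P x ∧ w = x * g) ∧
  (∀ x, XR cs P x → ∀ g ∈ par cs P, cs.length (x * g) = cs.length x + cs.length g)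

/-- PACKET AM-GPB (1.5 h). From `G_ORD`, `G_EX`, `G_PA`. Parabolic subgroups, second part.

PROOF. (1) injective: `s_i = s_j` gives `orderOf (s_i s_j) = 1 = M i j`, so `i = j` (`off_diagonal`). (2) `s_i ∈ W_P`: a reduced word with letters in `P` has length `ℓ(s_i) = 1`: `s_i = s_j`, `j ∈ P`. (3) `w ∈ W_P`, `ℓ(w s_i) < ℓ(w)`: a reduced word `ω` of `w` with letters in `P` (`G_PA`); `G_EX`: `w s_i ∈ W_P`, so `s_i ∈ W_P`.
(4) left version: inverses (`ℓ(w⁻¹) = ℓ(w)`). (5) reduced words of `w ∈ W_P`: induction from the end: the last letter `i` has `ℓ(w s_i) < ℓ(w)`, so `i ∈ P`, and `w s_i ∈ W_P`. (6) concatenate reduced words of `u` and `v`: this is a reduced word of `u v`; use (5). (7) `≥` is clear (monotonicity of the closure). `≤`: a reduced word of `w` has letters in `P` and in `Q` by (5). -/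
def G_PB : Prop := ∀ (S W : Type) [Group W] (M : CoxeterMatrix S) (cs : CoxeterSystem M W),
  Function.Injective cs.simple ∧ ∀ P : Set S,
  (∀ i, cs.simple i ∈ par cs P → i ∈ P) ∧
  (∀ w ∈ par cs P, ∀ i, cs.length (w * cs.simple i) < cs.length w → i ∈ P) ∧
  (∀ w ∈ par cs P, ∀ i, cs.length (cs.simple i * w) < cs.length w → i ∈ P) ∧
  (∀ ω : List S, cs.IsReduced ω → cs.wordProd ω ∈ par cs P → ∀ i ∈ ω, i ∈ P) ∧
  (∀ u v, cs.length (u * v) = cs.length u + cs.length v → u * v ∈ par cs P → u ∈ par cs P ∧ v ∈ par cs P) ∧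
  (∀ Q : Set S, par cs P ⊓ par cs Q = par cs (P ∩ Q))

/-- PACKET AM-GPC (1.5 h). From `G_PA`, `G_PB`. Parabolic subgroups, third part: uniqueness, transitivity, mirror images.

PROOF. (1) uniqueness: `x' = x (g g'⁻¹)`, so `ℓ(x') = ℓ(x) + ℓ(g g'⁻¹)`, and by symmetry `ℓ(x) = ℓ(x') + ℓ(g' g⁻¹)`: `ℓ(g g'⁻¹) = 0`. (2) transitivity: for `i ∈ P ⊆ Q`: `ℓ(x z s_i) = ℓ(x) + ℓ(z s_i) = ℓ(x) + ℓ(z) + 1` (`G_PA` (3) for `Q`; `z s_i ∈ W_Q`). Mirror images: `XL P y` iff `XR P y⁻¹`, `ℓ(w⁻¹) = ℓ(w)`, apply the statements for `XR` to the inverses. -/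
def G_PC : Prop := ∀ (S W : Type) [Group W] (M : CoxeterMatrix S) (cs : CoxeterSystem M W) (P : Set S),
  (∀ x x' g g', XR cs P x → XR cs P x' → g ∈ par cs P → g' ∈ par cs P → x * g = x' * g' → x = x' ∧ g = g') ∧
  (∀ (Q : Set S) (x z : W), P ⊆ Q → XR cs Q x → z ∈ par cs Q → XR cs P z → XR cs P (x * z)) ∧
  (∀ y, XL cs P y ↔ XR cs P y⁻¹) ∧
  (∀ w, ∃ g ∈ par cs P, ∃ y, XL cs P y ∧ w = g * y) ∧
  (∀ y, XL cs P y → ∀ g ∈ par cs P, cs.length (g * y) = cs.length g + cs.length y) ∧
  (∀ y y' g g', XL cs P y → XL cs P y' → g ∈ par cs P → g' ∈ par cs P → g * y = g' * y' → y = y' ∧ g = g') ∧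
  (∀ (Q : Set S) (y z : W), P ⊆ Q → XL cs Q y → z ∈ par cs Q → XL cs P z → XL cs P (z * y))

/-- PACKET AM-GD (2 h). From `G_ORD`, `G_PA`, `G_PB`, `G_PC`. Two descents.

PROOF. (0) `al i j m = al j i m` for `m = M i j`: `al i j m * (al j i m)⁻¹` is `(s_i s_j)^m` or `(s_j s_i)^m` [inverse of `al j i m`: reverse the word; `al cs i j k` is `wordProd` of an alternating list, Mathlib has `wordProd_braidWord_eq`]; `al i j (k+1) = s_i * al j i k`, and also `al i j (k+1) = al i j k * (s_i or s_j)` according to the parity of `k`.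
(1) right descents: `P = {i, j}`, `w = x g`, `XR P x`, `g ∈ W_P` (`G_PA`); `ℓ(g s_i) < ℓ(g)` and `ℓ(g s_j) < ℓ(g)` (length additivity). Let `k = ℓ(g) ≥ 1`. `g s_i ∈ W_P` has a reduced word with letters in `P`, so `g` has a reduced word `ω` (with letters in `P`) with last letter `i`, and another one `ω'` with last letter `j`. A reduced word
has no two equal neighbours, so both are alternating of length `k`, and `1 = g g⁻¹ = π(ω) π(ω')⁻¹` is a product of `2 k` alternating letters, i.e. `(s_i s_j)^k = 1` or `(s_j s_i)^k = 1`. By `G_ORD` `M i j ∣ k`, so `M i j ≠ 0` and `k ≥ M i j`. `k ≤ M i j`: `not_isReduced_alternatingWord` (Mathlib), or: an alternating word of length `m + 1` is not reduced by (0).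
So `k = m`, `g = al i j m` or `al j i m`, equal by (0). `u = x`. (2) left descents: apply (1) to `w⁻¹`; `(al i j m)⁻¹ ∈ {al i j m, al j i m}`, equal by (0). -/
def G_D : Prop := ∀ (S W : Type) [Group W] (M : CoxeterMatrix S) (cs : CoxeterSystem M W) (i j : S), i ≠ j →
  al cs i j (M i j) = al cs j i (M i j) ∧
  (∀ w, cs.length (w * cs.simple i) < cs.length w → cs.length (w * cs.simple j) < cs.length w →
    M i j ≠ 0 ∧ ∃ u, w = u * al cs i j (M i j) ∧ cs.length w = cs.length u + M i j) ∧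
  (∀ w, cs.length (cs.simple i * w) < cs.length w → cs.length (cs.simple j * w) < cs.length w →
    M i j ≠ 0 ∧ ∃ u, w = al cs i j (M i j) * u ∧ cs.length w = M i j + cs.length u)

/-- PACKET AM-GMT (2 h). From `G_PA`, `G_PB`, `G_D`. Matsumoto's theorem for words with letters in `I'` (the Coxeter group of `I'` versus `W`).

PROOF. Let `cs'` be the Coxeter system of `subE M e he`, `π'` its word product. Induction on the length of `ω₁` (both words have length `ℓ(w)`, `w = π(ω₁.map e)`). Length `0`: trivial. `ω₁ = i :: ω₁'`, `ω₂ = j :: ω₂'`. `i = j`: the images of `ω₁'`, `ω₂'` are reduced words of `s_(e i) w`: induction. `i ≠ j`: `e i ≠ e j` are both left descents of `w`: `G_D`: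
`m = M (e i) (e j) ≠ 0`, `w = al (e i) (e j) m * u`, `ℓ(w) = m + ℓ(u)`. `w ∈ par cs (range e)` (its word has letters there), so `u` too (`G_PB`), and `u` has a reduced word with letters in `range e` (`G_PA`), i.e. of the form `η.map e`. Let `A` be the alternating list `i j i ⋯` with `m` letters and `A'` the one starting with `j`. The images of `A ++ η` and
`A' ++ η` are words of `w` (`G_D` (0)) of length `ℓ(w)`, so reduced. `A ++ η = i :: ..`: compare with `ω₁ = i :: ω₁'` (case `i = j`): `π'(ω₁) = π'(A ++ η)`. Same for `ω₂`. And `π'(A) = π'(A')`: `al cs' i j m = al cs' j i m`, `m = (subE M e he) i j`, by `G_D` (first statement) for `cs'`. -/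
def G_MT : Prop := ∀ (S W : Type) [Group W] (M : CoxeterMatrix S) (cs : CoxeterSystem M W) (I' : Type) (e : I' → S)
    (he : Function.Injective e) (ω₁ ω₂ : List I'), cs.IsReduced (ω₁.map e) → cs.IsReduced (ω₂.map e) →
  cs.wordProd (ω₁.map e) = cs.wordProd (ω₂.map e) →
  (subE M e he).toCoxeterSystem.wordProd ω₁ = (subE M e he).toCoxeterSystem.wordProd ω₂

/-- PACKET AM-GPS (2 h). From `G_PA`, `G_PB`, `G_MT`. The Coxeter group of `I'` is the parabolic subgroup of `range e`.

PROOF. `iotaE cs e he (π'(ω)) = π(ω.map e)` (`lift_apply_simple`). Length: let `ω` be a reduced word of `g` for `cs' = (subE M e he).toCoxeterSystem`; it suffices that `ω.map e` is reduced. Otherwise let `ω₀ ++ [i]` be the shortest prefix of `ω` whose image is not reduced: `w₀ = π(ω₀.map e)`, `ℓ(w₀) = |ω₀|`, `ℓ(w₀ s_(e i)) < ℓ(w₀)`. `w₀ s_(e i) ∈ par cs (range e)` has a reduced word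
with letters in `range e` (`G_PA`), of the form `ω₁.map e`, `|ω₁| = |ω₀| - 1`; `(ω₁ ++ [i]).map e` is a reduced word of `w₀`. `G_MT`: `π'(ω₀) = π'(ω₁ ++ [i])`, so `π'(ω₀ ++ [i]) = π'(ω₁)` has length `≤ |ω₀| - 1`; but `ω₀ ++ [i]` is a prefix of the reduced word `ω`, hence reduced. Contradiction. Injective: `iota g = 1` gives `ℓ'(g) = 0`, `g = 1`. Range: the closure
of the images of the generators (`MonoidHom.map_closure`, `subgroup_closure_range_simple`). Weights: `pos`: `g ≠ 1 → iota g ≠ 1`; `add`: lengths are preserved. -/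
def G_PS : Prop := ∀ (S W : Type) [Group W] (M : CoxeterMatrix S) (cs : CoxeterSystem M W) (I' : Type) (e : I' → S)
    (he : Function.Injective e),
  (∀ g, cs.length (iotaE cs e he g) = (subE M e he).toCoxeterSystem.length g) ∧
  Function.Injective (iotaE cs e he) ∧ (iotaE cs e he).range = par cs (Set.range e) ∧
  ∀ L, IsWeight cs L → IsWeight (subE M e he).toCoxeterSystem fun g => L (iotaE cs e he g)

/-- PACKET AM-FIN (2 h). From `R_W` (RA/GoalsR.lean, proved) . A product of finite dihedral groups is finite.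

PROOF. For `i ≠ j` in `S`: `M i j = 2` or `M i j ≥ 3`. By the hypothesis every `i` has at most one `j ≠ i` with `M i j ≥ 3` (if `3 ≤ M j i`, `3 ≤ M i k`, `j ≠ k`: contradiction), and `r i j :⇔ i = j ∨ 3 ≤ M i j` is an equivalence relation with classes of size `≤ 2`. Let `V` be the quotient (finite), and for `v : V` let `G v` be the subgroup generated by the `s_i`, `i ∈ v`. Elements of `G u`, `G v`, `u ≠ v`,
commute (`M i j = 2`: `(s_i s_j)^2 = 1`). `G v` is finite: one generator: `{1, s_i}`; two generators `i, j` (`M i j ≠ 0`): every element is `al i j k` or `al j i k` with `k < 2 M i j`: the set of these elements is finite, contains `1`, `s_i`, `s_j`, and is closed under left multiplication by `s_i`, `s_j` (`al` of length `k ≥ 2m` reduces by `(s_i s_j)^m = 1`). [Or the hom from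
the Coxeter group of `subE M` on the class, finite by `R_W`.] The map `∏ v, G v → W` (`Subgroup.noncommPiCoprod` / `MonoidHom.noncommPiCoprod`) is a homomorphism whose range contains all `s_i`, so it is surjective, and `W` is finite. (Another way: induction on `S` via the finite set of products `g_1 ⋯ g_n`, `g_l ∈ G v_l`.) -/
def G_FIN : Prop := ∀ (S W : Type) [Finite S] [Group W] (M : CoxeterMatrix S) (_cs : CoxeterSystem M W),
  (∀ i j, M i j ≠ 0) → (∀ i j k, i ≠ k → 3 ≤ M i j → 3 ≤ M j k → False) → Finite W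

/-! ## V: transfer between the parabolic subgroup and its own Hecke algebra -/

/-- PACKET AM-VA (2 h). From `H_1`, `H_2`, `H_3` (proved), `G_PB`. Supports (compare `V_1` in RA/GoalsK.lean, proved in Pool/Agent/Helper35/RA/V1.lean: copy).

PROOF. (1) `T_g T_(g')`: induction on `ℓ(g)`: `g = s_i g₁` reduced, `i ∈ P` and `g₁ ∈ W_P` (`G_PB`); `T_(s_i) T_y` with `y ∈ W_P` has support in `{y, s_i y} ⊂ W_P`. (2) `bar T_g`: `bar T_(s_i w) = (T_(s_i) - ξ_i) bar T_w`. (3) Let `g ∈ W_P`, `c_g = ∑ p_y T_y`. If some `y ∉ W_P` has `p_y ≠ 0`, take such a `y₀` of maximal length. The coefficient of `T_(y₀)` in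
`bar c_g = ∑ invert p_y bar T_y`: the terms with `y ∈ W_P` do not contribute, the terms `y ∉ W_P`, `y ≠ y₀` have `ℓ(y) ≤ ℓ(y₀)` and do not contribute (`H_2`), so it is `invert p_(y₀)`. So `p_(y₀) = invert p_(y₀)` with degree `≤ -1`: `0`. (4) the `c`-expansion of an element with `T`-support in `W_P` only involves `c_y`, `y ∈ W_P` (take the longest `y` in the `T`-support,
subtract `coefficient • c_y`); with the uniqueness of `h`. (5) the same for the basis `b`. -/
def V_A : Prop := ∀ (S W H : Type) [Group W] [Ring H] [Algebra ℤ[T;T⁻¹] H] (X : Base S W H) (P : Set S),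
  (∀ g ∈ par X.cs P, ∀ g' ∈ par X.cs P, ∀ k, X.D.t.repr (X.D.t g * X.D.t g') k ≠ 0 → k ∈ par X.cs P) ∧
  (∀ g ∈ par X.cs P, ∀ k, X.D.t.repr (X.D.bar (X.D.t g)) k ≠ 0 → k ∈ par X.cs P) ∧
  (∀ g ∈ par X.cs P, ∀ k, X.D.t.repr (X.D.c g) k ≠ 0 → k ∈ par X.cs P) ∧
  (∀ g ∈ par X.cs P, ∀ g' ∈ par X.cs P, ∀ k, X.h g g' k ≠ 0 → k ∈ par X.cs P) ∧
  (∀ Z, (∀ k, X.D.t.repr Z k ≠ 0 → k ∈ par X.cs P) ↔ (∀ k, X.b.repr Z k ≠ 0 → k ∈ par X.cs P))

/-- PACKET AM-VB (2.5 h). From `V_A`, `G_PS`, `H_1`, `H_2`. The Hecke algebra of the parabolic subgroup, inside `H` (compare `V_2` in RA/GoalsK.lean, proved in Pool/Agent/Helper88/RA/V2.lean: copy).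

PROOF. `Hv` := the `ℤ[v,v⁻¹]`-subalgebra of `H` with carrier `{Z | the T-support of Z is in R}`, `R` = range of `iotaE` = `par cs (range e)` (closed under products by `V_A` (1), contains `1 = T_1`); `j` = inclusion. Basis `t g := T_(iota g)` (`iota` injective). `mul`: lengths are preserved (`G_PS`). `quad`: `iota s_i = s_(e i)`. `bar`: restricts by `V_A` (2) and semilinearity.
`bar_t`: `iota g⁻¹ = (iota g)⁻¹`. `c g := c_(iota g)` is in `Hv` by `V_A` (3); `c_sub`: coordinates in `Hv` are coordinates in `H`. -/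
def V_B : Prop := ∀ (S W H : Type) [Group W] [Ring H] [Algebra ℤ[T;T⁻¹] H] (X : Base S W H) (I' : Type) (e : I' → S)
    (he : Function.Injective e), ∃ (Hv : Type) (_ : Ring Hv) (_ : Algebra ℤ[T;T⁻¹] Hv)
    (Dv : Hecke (subE X.M e he).toCoxeterSystem (fun g => X.L (iotaE X.cs e he g)) Hv) (j : Hv →ₐ[ℤ[T;T⁻¹]] H),
    Function.Injective j ∧ (∀ g, j (Dv.t g) = X.D.t (iotaE X.cs e he g)) ∧
      ∀ g, j (Dv.c g) = X.D.c (iotaE X.cs e he g)

/-- PACKET AM-VC (2.5 h). From `V_A`, `V_B`, `G_PS`, `H_2`, `H_3`. (compare `V_3` in RA/GoalsK.lean, proved in Pool/Agent/Helper33/RA/V3.lean: copy).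

PROOF. `V_B` gives `Dv`, `j`; `GoodSysU` gives `(B)` with `N`, and `hv, a` with `Good Dv hv a`, `HasU hv a`. Applying `j` to `c_g c_(g') = ∑ hv_(g,g',l) c_l` and uniqueness of `h` (`H_3`): `h (ι g) (ι g') (ι l) = hv g g' l`, `ι = iotaE` injective with range `par cs (range e)`. `D.t.repr (D.c (ι g)) (ι y) = Dv.t.repr (Dv.c g) y`, same for products of `t`. Define `α(ι g) = a(g)`, `α = 0` outside
the range (`Function.extend` or choose preimages). All fields of `PG` are translations: `bdd`: for `z ∉ W_P` the coefficient is `0` (`V_A`); `deg`, `p1`, `p4`, `p8` from `Good`; `low`: `IsA`: some `x y` with `DegLE (a l) (hv x y l)` and not `DegLE (a l - 1)`: the coefficient of `v^(a l)` is `≠ 0`; `u`: `lam.mapDomain (Prod.map ι ι)`. -/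
def V_C : Prop := ∀ (S W H : Type) [Group W] [Ring H] [Algebra ℤ[T;T⁻¹] H] (X : Base S W H) (I' : Type) (e : I' → S)
    (he : Function.Injective e),
  GoodSysU (subE X.M e he).toCoxeterSystem (fun g => X.L (iotaE X.cs e he g)) →
  ∃ α : W → ℕ, PG X.D X.h (Set.range e) α

/-- PACKET AM-VD (0.7 h). The whole group.

PROOF. `par cs univ = ⊤` (`subgroup_closure_range_simple`, `Set.image_univ`). `Bdd`, `p1`, `p4`, `p8` are fields; `isH := X.isH`; `isA`: `deg` and `low` (a nonzero coefficient of `v^(α z)` contradicts `DegLE (α z - 1)`); `HasU`: field `u`. -/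
def V_D : Prop := ∀ (S W H : Type) [Group W] [Ring H] [Algebra ℤ[T;T⁻¹] H] (X : Base S W H) (α : W → ℕ),
  PG X.D X.h Set.univ α → X.D.Bdd ∧ Good X.D X.h α ∧ HasU X.h α

/-! ## U: finite groups have (U) -/

/-- PACKET AM-U (2.5 h). From `H_1`, `H_2`, `H_3`, `H_J` (proved). P1, P4, P8 give (U) for finite `W`.

PROOF. `γ(x,y,z) := gam h a x y z = (h x y z).coeff (a z)`. `n_z := ` coefficient of `v^(-a z)` in `τ(c_z) = D.t.repr (D.c z) 1`. (1) `∑_z γ(x,y,z) n_z = 1` if `x y = 1`, `0` otherwise: the coefficient of `v^0` in `τ(c_x c_y) = ∑_z h_(x,y,z) τ(c_z)` (`deg h_(x,y,z) ≤ a(z)` by `isA`, `deg τ(c_z) ≤ -a(z)` by `p1`; `coeff_mul_top`); on the other hand `τ(c_x c_y) = ∑_(u,w) p_u p'_w τ(T_u T_w) =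
∑_u p_u p'_(u⁻¹)` (`H_1`), where `p`, `p'` are the `T`-coordinates of `c_x`, `c_y`; these have degree `≤ 0`, and degree `≤ -1` except `p_x = 1`, `p'_y = 1` (`H_2`). (2) associativity (`H_J`, i.e. `JAssoc`, for `Finsupp.single x 1`, ..): `∑_w γ(x,y,w) γ(w,z,u) = ∑_w γ(y,z,w) γ(x,w,u)` for all `x y z u`. Multiply by `n_u` and sum over `u`: with (1):
`γ(x,y,z⁻¹) = γ(y,z,x⁻¹)`. (3) `lam := ∑_(d : W) n_d • single (d⁻¹, g)` (`W` finite: `Finsupp.onFinset` / sum over `Fintype`): `∑_d n_d γ(d⁻¹,g,z) = ∑_d n_d γ(g,z⁻¹,d)` (by (2) with `x = d⁻¹`, `y = g`, `z⁻¹` for `z`: `γ(d⁻¹,g,z) = γ(g,z⁻¹,d)`), which is `1` if `g z⁻¹ = 1` and `0` otherwise, by (1). -/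
def U_1 : Prop := ∀ (S W H : Type) [Finite W] [Group W] [Ring H] [Algebra ℤ[T;T⁻¹] H] (M : CoxeterMatrix S)
    (cs : CoxeterSystem M W) (L : W → ℕ), IsWeight cs L → ∀ (D : Hecke cs L H)
    (h : W → W → W →₀ ℤ[T;T⁻¹]) (a : W → ℕ), Good D h a → HasU h a

end Pool.Agent.Helper15.AM
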