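import Pool.Agent.Helper15.AM.AsmF
import Pool.Agent.Helper45.AM.AsmM
import Pool.Agent.Helper86.AM.GMAT
import Pool.Agent.Helper22.AM.GORD
import Pool.Agent.Helper2.AM.GEX
import Pool.Agent.Helper15.AM.GPAcopy
import Pool.Agent.Helper44.AM.GPB
import Pool.Agent.Helper87.AM.GPC
import Pool.Agent.Helper16.AM.GD
import Pool.Agent.Helper19.AM.GMT
import Pool.Agent.Helper56.AM.GPS
import Pool.Agent.Helper49.AM.FIN
import Pool.Agent.Helper53.AM.VA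
import Pool.Agent.Helper36.AM.VB
import Pool.Agent.Helper83.AM.VC
import Pool.Agent.Helper3.AM.VD
import Pool.Agent.Helper82.AM.U
import Pool.Agent.Helper13.AM.AB
import Pool.Agent.Helper14.AM.AS
import Pool.Agent.Helper87.AM.AM
import Pool.Agent.Helper86.AM.AK
import Pool.Agent.Helper91.AM.AL
import Pool.Agent.Helper74.AM.AO
import Pool.Agent.Helper2.AM.AP
import Pool.Agent.Helper64.AM.AJ
import Pool.Agent.Helper85.AM.AQ
import Pool.Agent.Helper18.AM.AC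
import Pool.Agent.Helper41.AM.A1
import Pool.Agent.Helper33.AM.AR
import Pool.Agent.Helper20.AM.AU
import Pool.Agent.Helper56.AM.B1
import Pool.Agent.Helper22.AM.B2
import Pool.Agent.Helper97.AM.B3
import Pool.Agent.Helper49.AM.B4
import Pool.Agent.Helper59.AM.B5
import Pool.Agent.Helper31.AM.B6
import Pool.Agent.Helper90.AM.B7
import Pool.Agent.Helper19.AM.B8
import Pool.Agent.Helper83.AM.B9
import Pool.Agent.Helper5.AM.C1
import Pool.Agent.Helper81.AM.C2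
import Pool.Agent.Helper62.AM.C3
import Pool.Agent.Helper36.AM.C4
import Pool.Agent.Helper24.AM.C5
import Pool.Agent.Helper44.AM.C6
import Pool.Agent.Helper61.AM.C7
import Pool.Agent.Helper82.AM.C7b
import Pool.Agent.Helper46.AM.C8
import Pool.Agent.Helper88.AM.D1
import Pool.Agent.Helper98.AM.D2
import Pool.Agent.Helper83.AM.D3
import Pool.Agent.Helper8.AM.D4
import Pool.Agent.Helper60.AM.D5
import Pool.Agent.Helper25.AM.D6
import Pool.Agent.Helper30.AM.D7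
import Pool.Agent.Helper2.AM.D8
import Pool.Agent.Helper13.AM.E1
import Pool.Agent.Helper12.AM.E2
import Pool.Agent.Helper32.AM.E3
import Pool.Agent.Helper58.AM.E4
import Pool.Agent.Helper82.AM.E5
import Pool.Agent.Helper32.AM.E6
import Pool.Agent.Helper96.AM.E7
import Pool.Agent.Helper44.AM.P1
import Pool.Agent.Helper91.AM.P2

/-!
# Project AM (MP_cc6379_al): all goals
-/

set_option autoImplicit false

open Pool.Agent.Helper15.RA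

namespace Pool.Agent.Helper15.AM

theorem k_gmat : Pool.Agent.Helper15.AM.G_MAT := Pool.Agent.Helper86.AM.h_gmat
theorem k_gord : Pool.Agent.Helper15.AM.G_ORD := Pool.Agent.Helper22.AM.h_gord k_gmat
theorem k_gex : Pool.Agent.Helper15.AM.G_EX := Pool.Agent.Helper2.AM.h_gex g_xe
theorem k_gpa : Pool.Agent.Helper15.AM.G_PA := Pool.Agent.Helper15.AM.GPAcopy.h_gpa k_gex
theorem k_gpb : Pool.Agent.Helper15.AM.G_PB := Pool.Agent.Helper44.AM.h_gpb k_gord k_gex k_gpa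
theorem k_gpc : Pool.Agent.Helper15.AM.G_PC := Pool.Agent.Helper87.AM.h_gpc k_gpa
theorem k_gd : Pool.Agent.Helper15.AM.G_D := Pool.Agent.Helper16.AM.h_gd k_gord k_gpa k_gpb k_gpc
theorem k_gmt : Pool.Agent.Helper15.AM.G_MT := Pool.Agent.Helper19.AM.h_gmt k_gpa k_gpb k_gd
theorem k_gps : Pool.Agent.Helper15.AM.G_PS := Pool.Agent.Helper56.AM.h_gps k_gpa k_gpb k_gmt
theorem k_gfin : Pool.Agent.Helper15.AM.G_FIN := Pool.Agent.Helper49.AM.h_gfin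
theorem k_va : Pool.Agent.Helper15.AM.V_A := Pool.Agent.Helper53.AM.h_va g_h1 g_h2 k_gpb
theorem k_vb : Pool.Agent.Helper15.AM.V_B := Pool.Agent.Helper36.AM.h_vb k_va k_gps g_h1 g_h2
theorem k_vc : Pool.Agent.Helper15.AM.V_C := Pool.Agent.Helper83.AM.h_vc k_vb k_gps
theorem k_vd : Pool.Agent.Helper15.AM.V_D := Pool.Agent.Helper3.AM.h_vd
theorem k_u1 : Pool.Agent.Helper15.AM.U_1 := Pool.Agent.Helper82.AM.h_u1 g_h1 g_h2 g_hj
theorem k_ab : Pool.Agent.Helper45.AM.A_B := Pool.Agent.Helper13.AM.h_a_b g_h1 g_h2 g_h3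
theorem k_as : Pool.Agent.Helper45.AM.A_S := Pool.Agent.Helper14.AM.h_a_s g_h1 g_h2
theorem k_am : Pool.Agent.Helper45.AM.A_M := Pool.Agent.Helper87.AM.h_a_m g_hv
theorem k_ak : Pool.Agent.Helper45.AM.A_K := Pool.Agent.Helper86.AM.h_a_k k_gpa k_gpc g_h2 k_as
theorem k_al : Pool.Agent.Helper45.AM.A_L := Pool.Agent.Helper91.AM.h_a_l k_ak k_am
theorem k_ao : Pool.Agent.Helper45.AM.A_O := Pool.Agent.Helper74.AM.h_a_o k_gpa k_gpc k_ab k_as k_am k_ak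
theorem k_ap : Pool.Agent.Helper45.AM.A_P := Pool.Agent.Helper2.AM.h_a_p k_ab k_as k_am g_h2
theorem k_aj : Pool.Agent.Helper45.AM.A_J := Pool.Agent.Helper64.AM.h_a_j k_ab k_as k_am g_h1 g_h2
theorem k_aq : Pool.Agent.Helper45.AM.A_Q := Pool.Agent.Helper85.AM.h_a_q k_as k_aj
theorem k_ac : Pool.Agent.Helper45.AM.A_C := Pool.Agent.Helper18.AM.h_a_c k_gpc k_ab k_as k_am k_ak k_ap
theorem k_a1 : Pool.Agent.Helper45.AM.A_1 := Pool.Agent.Helper41.AM.h_a_1 k_gpa g_h1 k_ab k_as k_am k_ak k_ao k_ap k_aj k_ac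
theorem k_ar : Pool.Agent.Helper45.AM.A_R := Pool.Agent.Helper33.AM.h_a_r k_ab k_as k_ak k_al k_ao k_ap k_aj
theorem k_au : Pool.Agent.Helper45.AM.A_U := Pool.Agent.Helper20.AM.h_a_u k_gpc k_as k_ao k_ap k_aj k_ac
theorem k_b1 : Pool.Agent.Helper45.AM.B_1 := Pool.Agent.Helper56.AM.h_b_1 k_gpa k_gpb k_gpc k_gd
theorem k_b2 : Pool.Agent.Helper45.AM.B_2 := Pool.Agent.Helper22.AM.h_b_2 k_gpa k_gpc k_b1
theorem k_b3 : Pool.Agent.Helper45.AM.B_3 := Pool.Agent.Helper97.AM.h_b_3 k_gpa k_gpc k_b1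
theorem k_b4 : Pool.Agent.Helper45.AM.B_4 := Pool.Agent.Helper49.AM.h_b_4 k_gpc k_b1
theorem k_b5 : Pool.Agent.Helper45.AM.B_5 := Pool.Agent.Helper59.AM.h_b_5 k_gpa k_gpb k_gpc k_ap k_b1 k_b2
theorem k_b6 : Pool.Agent.Helper45.AM.B_6 := Pool.Agent.Helper31.AM.h_b_6 k_gpa k_gpb k_gpc k_ap k_b1 k_b5
theorem k_b7 : Pool.Agent.Helper45.AM.B_7 := Pool.Agent.Helper90.AM.h_b_7 k_gpa k_gpc k_am k_ao k_ap k_b1 k_b5 k_b6
theorem k_b8 : Pool.Agent.Helper45.AM.B_8 := Pool.Agent.Helper19.AM.h_b_8 k_gpa k_gpc k_b1 k_b3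
theorem k_b9 : Pool.Agent.Helper45.AM.B_9 := Pool.Agent.Helper83.AM.h_b_9 k_gpc k_b1 k_b2 k_b4 k_b8
theorem k_c1 : Pool.Agent.Helper45.AM.C_1 := Pool.Agent.Helper5.AM.h_c_1 k_gpa k_gpc k_as
theorem k_c2 : Pool.Agent.Helper45.AM.C_2 := Pool.Agent.Helper81.AM.h_c_2 k_gpa k_gpc g_h2 k_as k_a1 k_b1 k_b2 k_b3 k_b5 k_b7
theorem k_c3 : Pool.Agent.Helper45.AM.C_3 := Pool.Agent.Helper62.AM.h_c_3 g_h1 g_h2 k_as k_b1 k_b3 k_b5 k_c1 k_c2
theorem k_c4 : Pool.Agent.Helper45.AM.C_4 := Pool.Agent.Helper36.AM.h_c_4 k_b1 k_b3 k_b5 k_c1 k_c2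
theorem k_c5 : Pool.Agent.Helper45.AM.C_5 := Pool.Agent.Helper24.AM.h_c_5 k_gpa k_gpc k_as k_ak k_al k_ap k_b1 k_b3 k_b5 k_b6
theorem k_c6 : Pool.Agent.Helper45.AM.C_6 := Pool.Agent.Helper44.AM.h_c_6 k_ar k_as k_b1 k_b3 k_b7
theorem k_c7 : Pool.Agent.Helper45.AM.C_7 := Pool.Agent.Helper61.AM.h_c_7 g_h1 g_h2 k_as k_b1 k_b3 k_b5 k_c1 k_c4 k_c5 k_c6
theorem k_c7b : Pool.Agent.Helper45.AM.C_7b := Pool.Agent.Helper82.AM.h_c_7b k_b1 k_c5 k_c6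
theorem k_c8 : Pool.Agent.Helper45.AM.C_8 := Pool.Agent.Helper46.AM.h_c_8 k_gpa k_gpc k_ab k_as k_b5
theorem k_d1 : Pool.Agent.Helper45.AM.D_1 := Pool.Agent.Helper88.AM.h_d_1 k_gpc g_h2 k_as k_b1 k_b3
theorem k_d2 : Pool.Agent.Helper45.AM.D_2 := Pool.Agent.Helper98.AM.h_d_2 k_gpa k_gpc g_h2 k_as k_b1 k_b3 k_d1
theorem k_d3 : Pool.Agent.Helper45.AM.D_3 := Pool.Agent.Helper83.AM.h_d_3 k_gpa g_h1 g_h2 k_as k_b2 k_b3 k_b5 k_d1
theorem k_d4 : Pool.Agent.Helper45.AM.D_4 := Pool.Agent.Helper8.AM.h_d_4 g_h1 g_h2 k_gpc k_b1 k_b2 k_b3 k_b9 k_c2 k_d1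
theorem k_d5 : Pool.Agent.Helper45.AM.D_5 := Pool.Agent.Helper60.AM.h_d_5 k_gpc k_as k_ak k_ao k_ap k_ac k_au k_b1 k_b3 k_b7 k_c7b k_d1
theorem k_d6 : Pool.Agent.Helper45.AM.D_6 := Pool.Agent.Helper25.AM.h_d_6 k_gpc k_ap k_c7b k_d5 g_h2
theorem k_d7 : Pool.Agent.Helper45.AM.D_7 := Pool.Agent.Helper30.AM.h_d_7 k_d4
theorem k_d8 : Pool.Agent.Helper45.AM.D_8 := Pool.Agent.Helper2.AM.h_d_8 g_h2 k_d1 k_d2 k_d3
theorem k_e1 : Pool.Agent.Helper45.AM.E_1 := Pool.Agent.Helper13.AM.h_e_1 g_h2 k_ab k_d3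
theorem k_e2 : Pool.Agent.Helper45.AM.E_2 := Pool.Agent.Helper12.AM.h_e_2 k_ab k_b5 k_d2 k_e1
theorem k_e3 : Pool.Agent.Helper45.AM.E_3 := Pool.Agent.Helper32.AM.h_e_3 k_gpa k_gpc k_ab k_as k_ak k_al k_aj k_b7 k_e1
theorem k_e4 : Pool.Agent.Helper45.AM.E_4 := Pool.Agent.Helper58.AM.h_e_4 k_ab k_as k_ak k_al k_e1
theorem k_e5 : Pool.Agent.Helper45.AM.E_5 := Pool.Agent.Helper82.AM.h_e_5 k_ab k_b1 k_b3 k_c2 k_d1
theorem k_e6 : Pool.Agent.Helper45.AM.E_6 := Pool.Agent.Helper32.AM.h_e_6 k_gpa k_as k_ap k_aj k_b1 k_b2 k_b3 k_b5 k_b7 k_e4 k_e5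
theorem k_e7 : Pool.Agent.Helper45.AM.E_7 := Pool.Agent.Helper96.AM.h_e_7
theorem k_p1 : Pool.Agent.Helper45.AM.P_1 := Pool.Agent.Helper44.AM.h_p_1 k_gpa k_gpb k_gpc g_h2 k_ab k_as
theorem k_p2 : Pool.Agent.Helper45.AM.P_2 := Pool.Agent.Helper91.AM.h_p_2 k_p1 k_as

theorem k_gm : GMain := Pool.Agent.Helper45.AM.gm g_h2 k_b5 k_c3 k_c7 k_c8 k_d6 k_d7 k_d8 k_e2 k_e3 k_e6 k_e7

theorem k_p12 : GP12 := k_aq

theorem factsF : FactsF where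
  gPB := k_gpb
  gPS := k_gps
  fin := k_gfin
  vC := k_vc
  vD := k_vd
  u1 := k_u1
  gM := k_gm
  p12 := k_p12
  p2 := k_p2

end Pool.Agent.Helper15.AM
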