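import Pool.Agent.Helper15.AM.GoalsG
import Pool.Agent.Helper15.RA.All
import Pool.Agent.Helper45.AM.GoalsP

/-!
# Project AM (MP_cc6379_al): part F, the final assembly
-/

set_option autoImplicit false

open LaurentPolynomial Pool.Agent.Helper15.RA Pool.Agent.Helper45.AM

noncomputable section

namespace Pool.Agent.Helper15.AM

/-- The closure under amalgams (the end product of parts A-E, helper45). -/
def GMain : Prop := ∀ (S W H : Type) [Group W] [Ring H] [Algebra ℤ[T;T⁻¹] H] (X : AC S W H),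
  ∃ a : W → ℕ, PG X.D X.h Set.univ a

/-- P12. -/
def GP12 : Prop := ∀ (S W H : Type) [Group W] [Ring H] [Algebra ℤ[T;T⁻¹] H] (X : Base S W H) (P Q : Set S)
  (α β : W → ℕ), P ⊆ Q → PG X.D X.h P α → PG X.D X.h Q β → ∀ g ∈ par X.cs P, α g = β g

/-- all the facts used in the assembly -/
structure FactsF : Prop where
  gPB : G_PB
  gPS : G_PS
  fin : G_FIN
  vC : V_C
  vD : V_D
  u1 : U_1
  gM : GMain
  p12 : GP12
  p2 : P_2

theorem pg_congr {S W H : Type} [Group W] [Ring H] [Algebra ℤ[T;T⁻¹] H] {M : CoxeterMatrix S} {cs : CoxeterSystem M W}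
    {L : W → ℕ} {D : Hecke cs L H} {h : W → W → W →₀ ℤ[T;T⁻¹]} {P : Set S} {α β : W → ℕ} (hP : PG D h P α)
    (he : ∀ g ∈ par cs P, β g = α g) : PG D h P β where
  bdd := hP.bdd
  deg x hx y hy z hz := by
    rw [he z hz]
    exact hP.deg x hx y hy z hz
  low z hz := by
    rw [he z hz]
    exact hP.low z hz
  p1 z hz := by
    rw [he z hz]
    exact hP.p1 z hz
  p4 x hx y hy z hz h := by
    rw [he z hz, he x hx, he y hy]
    exact hP.p4 x hx y hy z hz h
  p8 x hx y hy z hz h := by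
    rw [he z hz] at h ⊢
    rw [he x hx, he y hy]
    exact hP.p8 x hx y hy z hz h
  u g hg := by
    obtain ⟨lam, h1, h2⟩ := hP.u g hg
    refine ⟨lam, h1, fun z hz => ?_⟩
    rw [he z hz]
    exact h2 z hz

/-- The data `Base`. -/
theorem exists_base {S W H : Type} [Group W] [Ring H] [Algebra ℤ[T;T⁻¹] H] {M : CoxeterMatrix S}
    (cs : CoxeterSystem M W) (L : W → ℕ) (hL : IsWeight cs L) (D : Hecke cs L H) :
    ∃ (h : W → W → W →₀ ℤ[T;T⁻¹]) (b : Module.Basis W ℤ[T;T⁻¹] H), D.IsH h ∧ ∀ w, b w = D.c w := by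
  obtain ⟨⟨b, hb, -⟩, ⟨h, hh⟩, -⟩ := g_h3 S W H M cs L hL D
  exact ⟨h, b, hh, hb⟩

theorem iota_comp {S W : Type} [Group W] {M : CoxeterMatrix S} (cs : CoxeterSystem M W) {A C : Set S} (hAC : A ⊆ C)
    (g : (subM M A).Group) :
    iotaP cs C (iotaE (subM M C).toCoxeterSystem (Set.inclusion hAC) (Set.inclusion_injective hAC) g) =
      iotaP cs A g := by
  let φ : (subM M A).Group →* W := (iotaP cs C).comp (iotaE (subM M C).toCoxeterSystem (Set.inclusion hAC)
    (Set.inclusion_injective hAC))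
  have hφ : φ = iotaP cs A := by
    refine (subM M A).toCoxeterSystem.ext_simple fun i => ?_
    have h1 : iotaE (subM M C).toCoxeterSystem (Set.inclusion hAC) (Set.inclusion_injective hAC)
        ((subM M A).toCoxeterSystem.simple i) = (subM M C).toCoxeterSystem.simple (Set.inclusion hAC i) :=
      CoxeterSystem.lift_apply_simple _ (liftE (subM M C).toCoxeterSystem _ _) i
    have h2 : iotaP cs C ((subM M C).toCoxeterSystem.simple (Set.inclusion hAC i)) = cs.simple i.1 :=
      CoxeterSystem.lift_apply_simple _ (liftP cs C) _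
    have h3 : iotaP cs A ((subM M A).toCoxeterSystem.simple i) = cs.simple i.1 :=
      CoxeterSystem.lift_apply_simple _ (liftP cs A) _
    exact ((congrArg (iotaP cs C) h1).trans h2).trans h3.symm
  exact DFunLike.congr_fun hφ g

variable (F : FactsF)

include F

theorem exists_PG_incl {S W H : Type} [Group W] [Ring H] [Algebra ℤ[T;T⁻¹] H] {M : CoxeterMatrix S}
    (cs : CoxeterSystem M W) (L : W → ℕ) {A C : Set S} (hAC : A ⊆ C)
    (hA : GoodSysU (subM M A).toCoxeterSystem (fun g => L (iotaP cs A g)))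
    (wt : IsWeight (subM M C).toCoxeterSystem fun g => L (iotaP cs C g))
    (D : Hecke (subM M C).toCoxeterSystem (fun g => L (iotaP cs C g)) H)
    (h : (subM M C).Group → (subM M C).Group → (subM M C).Group →₀ ℤ[T;T⁻¹]) (isH : D.IsH h)
    (b : Module.Basis (subM M C).Group ℤ[T;T⁻¹] H) (hb : ∀ w, b w = D.c w) :
    ∃ α : (subM M C).Group → ℕ, PG D h {x : C | x.1 ∈ A} α := by
  have key := F.vC C (subM M C).Group H ⟨subM M C, (subM M C).toCoxeterSystem, _, wt, D, h, isH, b, hb⟩ A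
    (Set.inclusion hAC) (Set.inclusion_injective hAC)
  have hAll : ∀ L' : (subM M A).Group → ℕ, L' = (fun g => L (iotaP cs A g)) →
      GoodSysU (subM M A).toCoxeterSystem L' := fun L' e => e ▸ hA
  obtain ⟨α, hα⟩ := key (hAll _ (funext fun g => congrArg L (iota_comp cs hAC g)))
  refine ⟨α, ?_⟩
  have hr : Set.range (Set.inclusion hAC) = {x : C | x.1 ∈ A} := by
    ext x
    constructor
    · rintro ⟨y, rfl⟩
      exact y.2
    · intro hx
      exact ⟨⟨x.1, hx⟩, rfl⟩
  rw [hr] at hα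
  exact hα

/-- The step of the induction. -/
theorem step {S W : Type} [Group W] {M : CoxeterMatrix S} (cs : CoxeterSystem M W) (L : W → ℕ) (hL : IsWeight cs L)
    (C : Set S) (i j : S) (hi : i ∈ C) (hj : j ∈ C) (hij : M i j = 0)
    (hA : GoodSysU (subM M (C \ {j})).toCoxeterSystem (fun g => L (iotaP cs (C \ {j}) g)))
    (hB : GoodSysU (subM M (C \ {i})).toCoxeterSystem (fun g => L (iotaP cs (C \ {i}) g)))
    (hK : GoodSysU (subM M (C \ {i, j})).toCoxeterSystem (fun g => L (iotaP cs (C \ {i, j}) g))) :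
    GoodSysU (subM M C).toCoxeterSystem (fun g => L (iotaP cs C g)) := by
  classical
  intro H _ _ D
  have wt : IsWeight (subM M C).toCoxeterSystem fun g => L (iotaP cs C g) :=
    (F.gPS S W M cs C Subtype.val Subtype.val_injective).2.2.2 L hL
  obtain ⟨h, b, isH, hb⟩ := exists_base (subM M C).toCoxeterSystem _ wt D
  have hne : i ≠ j := fun h => by
    subst h
    rw [M.diagonal] at hij
    exact one_ne_zero hij
  obtain ⟨α₁, h1⟩ := exists_PG_incl F cs L (Set.sdiff_subset (s := C) (t := {j})) hA wt D h isH b hb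
  obtain ⟨α₂, h2⟩ := exists_PG_incl F cs L (Set.sdiff_subset (s := C) (t := {i})) hB wt D h isH b hb
  obtain ⟨α₃, h3⟩ := exists_PG_incl F cs L (Set.sdiff_subset (s := C) (t := {i, j})) hK wt D h isH b hb
  set P : Set C := {x : C | x.1 ∈ C \ {j}} with hP
  set Q : Set C := {x : C | x.1 ∈ C \ {i}} with hQ
  set K : Set C := {x : C | x.1 ∈ C \ {i, j}} with hKdef
  have hPQ : P ∩ Q = K := by
    ext x
    simp only [hP, hQ, hKdef, Set.mem_inter_iff, Set.mem_ofPred_eq, Set.mem_sdiff, Set.mem_singleton_iff,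
      Set.mem_insert_iff]
    tauto
  let X : Base C (subM M C).Group H := ⟨subM M C, (subM M C).toCoxeterSystem, _, wt, D, h, isH, b, hb⟩
  have e1 : ∀ g ∈ par (subM M C).toCoxeterSystem K, α₃ g = α₁ g :=
    F.p12 C _ H X K P α₃ α₁ (hPQ ▸ Set.inter_subset_left) h3 h1
  have e2 : ∀ g ∈ par (subM M C).toCoxeterSystem K, α₃ g = α₂ g :=
    F.p12 C _ H X K Q α₃ α₂ (hPQ ▸ Set.inter_subset_right) h3 h2
  let α : (subM M C).Group → ℕ := fun g => if g ∈ par (subM M C).toCoxeterSystem P then α₁ g else α₂ g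
  have a1 : ∀ g ∈ par (subM M C).toCoxeterSystem P, α g = α₁ g := fun g hg => if_pos hg
  have a2 : ∀ g ∈ par (subM M C).toCoxeterSystem Q, α g = α₂ g := fun g hg => by
    by_cases hg' : g ∈ par (subM M C).toCoxeterSystem P
    · have hgK : g ∈ par (subM M C).toCoxeterSystem K := by
        have := (F.gPB C _ _ (subM M C).toCoxeterSystem).2 P
        have h5 := this.2.2.2.2.2 Q
        rw [hPQ] at h5
        rw [← h5]
        exact ⟨hg', hg⟩
      rw [a1 g hg', ← e1 g hgK, e2 g hgK]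
    · exact if_neg hg'
  have a3 : ∀ g ∈ par (subM M C).toCoxeterSystem K, α g = α₃ g := fun g hg => by
    have hgP : g ∈ par (subM M C).toCoxeterSystem P :=
      Subgroup.closure_mono (Set.image_mono (hPQ ▸ Set.inter_subset_left)) hg
    rw [a1 g hgP, e1 g hg]
  let Fb : Bool → Set C := fun b => if b then P else Q
  let Y : AC C (subM M C).Group H :=
    { X with
      F := Fb
      cover := fun x => by
        by_cases hx : x.1 = j
        · refine ⟨false, ⟨x.2, ?_⟩⟩
          intro h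
          exact hne ((Set.mem_singleton_iff.1 h).symm.trans hx)
        · exact ⟨true, ⟨x.2, hx⟩⟩
      inf := by
        have key : ∀ x y : C, x ∈ P → x ∉ Q → y ∈ Q → y ∉ P → x.1 = i ∧ y.1 = j := by
          intro x y hxP hxQ hyQ hyP
          simp only [hP, hQ, Set.mem_ofPred_eq, Set.mem_sdiff, Set.mem_singleton_iff, not_and, not_not] at hxP hxQ hyQ hyP
          exact ⟨hxQ x.2, hyP y.2⟩
        intro b x hx hx' y hy hy'
        cases b
        · obtain ⟨h4, h5⟩ := key y x hy hy' hx hx'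
          show M x.1 y.1 = 0
          rw [h4, h5, M.symmetric]
          exact hij
        · obtain ⟨h4, h5⟩ := key x y hx hx' hy hy'
          show M x.1 y.1 = 0
          rw [h4, h5]
          exact hij
      α := α
      pg := fun b => by
        cases b
        · exact pg_congr h2 a2
        · exact pg_congr h1 a1
      pgK := by
        show PG D h (P ∩ Q) α
        rw [hPQ]
        exact pg_congr h3 a3 }
  obtain ⟨a, ha⟩ := F.gM C _ H Y
  obtain ⟨r1, r2, r3⟩ := F.vD C _ H X a ha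
  exact ⟨r1, h, a, r2, r3⟩

/-- Direct products. -/
theorem stepProd {S W : Type} [Group W] {M : CoxeterMatrix S} (cs : CoxeterSystem M W) (L : W → ℕ)
    (hL : IsWeight cs L) (C A : Set S) (hAC : A ⊆ C) (h2 : ∀ i ∈ A, ∀ j ∈ C \ A, M i j = 2)
    (hA : GoodSysU (subM M A).toCoxeterSystem (fun g => L (iotaP cs A g)))
    (hB : GoodSysU (subM M (C \ A)).toCoxeterSystem (fun g => L (iotaP cs (C \ A) g))) :
    GoodSysU (subM M C).toCoxeterSystem (fun g => L (iotaP cs C g)) := by
  classical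
  intro H _ _ D
  have wt : IsWeight (subM M C).toCoxeterSystem fun g => L (iotaP cs C g) :=
    (F.gPS S W M cs C Subtype.val Subtype.val_injective).2.2.2 L hL
  obtain ⟨h, b, isH, hb⟩ := exists_base (subM M C).toCoxeterSystem _ wt D
  obtain ⟨α₁, h1⟩ := exists_PG_incl F cs L hAC hA wt D h isH b hb
  obtain ⟨α₂, h3⟩ := exists_PG_incl F cs L (Set.sdiff_subset (s := C) (t := A)) hB wt D h isH b hb
  let X : Base C (subM M C).Group H := ⟨subM M C, (subM M C).toCoxeterSystem, _, wt, D, h, isH, b, hb⟩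
  obtain ⟨γ, hγ, -⟩ := F.p2 C _ H X {x : C | x.1 ∈ A} {x : C | x.1 ∈ C \ A} α₁ α₂
    (fun i hi j hj => h2 i.1 hi j.1 hj) h1 h3
  have hU : {x : C | x.1 ∈ A} ∪ {x : C | x.1 ∈ C \ A} = Set.univ := by
    ext x
    simp only [Set.mem_union, Set.mem_ofPred_eq, Set.mem_sdiff, Set.mem_univ, iff_true]
    by_cases hx : x.1 ∈ A
    · exact Or.inl hx
    · exact Or.inr ⟨x.2, hx⟩
  rw [hU] at hγ
  obtain ⟨r1, r2, r3⟩ := F.vD C _ H X γ hγ
  exact ⟨r1, h, γ, r2, r3⟩

/-- At most two generators, `m ≠ ∞`. -/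
theorem goodSysU_two {S W : Type} [Finite S] [Group W] {M : CoxeterMatrix S} (cs : CoxeterSystem M W) (L : W → ℕ)
    (hL : IsWeight cs L) (h0 : ∀ i j, M i j ≠ 0) (hS : Nat.card S ≤ 2) : GoodSysU cs L := by
  have hfin : Finite W := by
    refine F.fin S W M cs h0 fun i j k hik h1 h2 => ?_
    have hij : i ≠ j := fun h => by
      subst h
      rw [M.diagonal] at h1
      omega
    have hjk : j ≠ k := fun h => by
      subst h
      rw [M.diagonal] at h2
      omega
    have := Fintype.ofFinite S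
    rw [Nat.card_eq_fintype_card] at hS
    have : 2 < Fintype.card S := Fintype.two_lt_card_iff.2 ⟨i, j, k, hij, hik, hjk⟩
    omega
  intro H _ _ D
  obtain ⟨hB, h, a, hg⟩ := RA.goodSys_two RA.facts cs L hL hS H D
  exact ⟨hB, h, a, hg, F.u1 S W H M cs L hL D h a hg⟩

/-- The induction. -/
theorem ind {S W : Type} [Finite S] [Group W] {M : CoxeterMatrix S} (cs : CoxeterSystem M W) (L : W → ℕ)
    (hL : IsWeight cs L)
    (hyp : ∀ P : Set S, 3 ≤ P.ncard → (∀ i ∈ P, ∀ j ∈ P, M i j ≠ 0) →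
      (∀ A ⊆ P, A.Nonempty → A ≠ P → ∃ i ∈ A, ∃ j ∈ P \ A, M i j ≠ 2) →
      GoodSysU (subM M P).toCoxeterSystem (fun g => L (iotaP cs P g))) :
    ∀ (n : ℕ) (C : Set S), C.ncard ≤ n → GoodSysU (subM M C).toCoxeterSystem (fun g => L (iotaP cs C g)) := by
  intro n
  induction n with
  | zero =>
    intro C hC
    have : C = ∅ := (Set.ncard_eq_zero (Set.toFinite C)).1 (Nat.le_zero.1 hC)
    subst this
    refine goodSysU_two F _ _ ((F.gPS S W M cs (∅ : Set S) Subtype.val Subtype.val_injective).2.2.2 L hL)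
      (fun i => absurd i.2 (Set.notMem_empty i.1)) ?_
    rw [Nat.card_coe_set_eq, Set.ncard_empty]
    omega
  | succ n ih =>
    intro C hC
    have c2 : ∀ (A : Set S) (x : S), x ∈ C → x ∉ A → A ⊆ C → A.ncard ≤ n := fun A x hx hxA hAC => by
      have h1 : A ⊂ C := ⟨hAC, fun h => hxA (h hx)⟩
      have := Set.ncard_lt_ncard h1 (Set.toFinite C)
      omega
    by_cases hinf : ∀ i ∈ C, ∀ j ∈ C, M i j ≠ 0
    · rcases Nat.lt_or_ge C.ncard 3 with h3 | h3
      · exact goodSysU_two F _ _ ((F.gPS S W M cs C Subtype.val Subtype.val_injective).2.2.2 L hL)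
          (fun i j => hinf i.1 i.2 j.1 j.2) (by
            rw [Nat.card_coe_set_eq]
            omega)
      · by_cases hirr : ∀ A ⊆ C, A.Nonempty → A ≠ C → ∃ i ∈ A, ∃ j ∈ C \ A, M i j ≠ 2
        · exact hyp C h3 hinf hirr
        · push Not at hirr
          obtain ⟨A, hAC, ⟨a, ha⟩, hne, hA⟩ := hirr
          obtain ⟨x, hx, hxA⟩ : ∃ x ∈ C, x ∉ A := by
            by_contra hc
            push Not at hc
            exact hne (Set.Subset.antisymm hAC hc)
          exact stepProd F cs L hL C A hAC hA (ih _ (c2 _ x hx hxA hAC))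
            (ih _ (c2 _ a (hAC ha) (fun h => h.2 ha) Set.sdiff_subset))
    · push Not at hinf
      obtain ⟨i, hi, j, hj, hij⟩ := hinf
      exact step F cs L hL C i j hi hj hij
        (ih _ (c2 _ j hj (fun h => h.2 rfl) Set.sdiff_subset))
        (ih _ (c2 _ i hi (fun h => h.2 rfl) Set.sdiff_subset))
        (ih _ (c2 _ i hi (fun h => h.2 (Set.mem_insert _ _)) Set.sdiff_subset))

/-- The main theorem. -/
theorem mainF {S W : Type} [Finite S] [Group W] (M : CoxeterMatrix S) (cs : CoxeterSystem M W) (L : W → ℕ)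
    (hL : IsWeight cs L)
    (hyp : ∀ P : Set S, 3 ≤ P.ncard → (∀ i ∈ P, ∀ j ∈ P, M i j ≠ 0) →
      (∀ A ⊆ P, A.Nonempty → A ≠ P → ∃ i ∈ A, ∃ j ∈ P \ A, M i j ≠ 2) →
      GoodSysU (subM M P).toCoxeterSystem (fun g => L (iotaP cs P g))) :
    (∃ (H : Type) (_ : Ring H) (_ : Algebra ℤ[T;T⁻¹] H), Nonempty (Hecke cs L H)) ∧
    ∀ (H : Type) [Ring H] [Algebra ℤ[T;T⁻¹] H] (D : Hecke cs L H),
      D.Bdd ∧ ∃ h a, Good D h a ∧ HasU h a ∧ JAssoc h a ∧ ∀ h' a', D.IsH h' → IsA h' a' → h' = h ∧ a' = a := by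
  refine ⟨exists_hecke RA.facts cs L hL, ?_⟩
  intro H _ _ D
  obtain ⟨h, b, isH, hb⟩ := exists_base cs L hL D
  let X : Base S W H := ⟨M, cs, L, hL, D, h, isH, b, hb⟩
  have h1 := ind F cs L hL hyp _ Set.univ le_rfl
  obtain ⟨α, hα⟩ := F.vC S W H X (Set.univ : Set S) Subtype.val Subtype.val_injective h1
  rw [Subtype.range_val] at hα
  obtain ⟨hB, hg, hu⟩ := F.vD S W H X α hα
  obtain ⟨-, -, huniq, -, hua⟩ := g_h3 S W H M cs L hL D
  refine ⟨hB, h, α, hg, hu, g_hj S W H M cs L hL D h α hg, fun h' a' hh' ha' => ?_⟩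
  have he : h' = h := huniq h' h hh' isH
  subst he
  exact ⟨rfl, hua h' a' α hh' ha' hg.isA⟩

end Pool.Agent.Helper15.AM
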